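import Pool.Agent.H367.OS.OOri
import Mathlib

/-!
# Modularity of abelian varieties of `GL₂`-type and single pieces of one sequence of cubics

A relation `r` of size `m` is one of the equations `x_i x_j = x_l`, `x_i + x_j = x_l`, `x_i = 1` with
`i, j, l < m`; the relations are numbered, the number of `r` is `ν(r)` (`relNum`). Let `G_m` be the
following polynomial with integral coefficients (`univG ℤ m`). There are variables `x_i` and `z_ij` for
`i, j < m`, a variable `c_r` for every relation `r`, and variables `y_{r,l}` for all relations `r` and
`l < (m + 1) 2 ^ ν(r)`. The equations (`eqnG`) are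

  `z_ij - x_i x_j`,  `c_r ^ 2 - c_r`,  `c_r ρ_r`,  `(1 - c_r) y_{r,l}`,

where `ρ_r` is the linear polynomial `z_ij - x_l`, `x_i + x_j - x_l` or `x_i - 1` of the relation.
`G_m` is the sum of the equations multiplied by further variables `t_e`, one for each equation. It has
degree three. Let `C_m` be the affine cubic hypersurface `G_m = 1` (`cubG R m` over the ring `R`); it is
smooth over the integers.

Let `F` be a totally real number field. Let `M` be the category of motives over `F` (motivated
cycles), a semisimple abelian category with Tate twists `N ↦ N(a)`. For a separated scheme `X` of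
finite type over `ℚ` let `D.G w j X = Gr^W_w H^j_c(X_F)` be the part of weight `w` of the cohomology
with compact supports, a motive over `F`; for smooth projective `Y` it is `h^j(Y_F)` if `j = w`, and
zero otherwise. For an abelian variety `B : Ab` over `F` let `h1 B` be the motive `h^1(B)`. Every
abelian variety `B` over `F` is a union of connected components of `Y_F`, where `Y` is `B` as a smooth
projective scheme over `ℚ`; and for every smooth projective scheme `Y` over `ℚ` the direct factors of
`h^1(Y_F)` are the motives `h^1(B)` of abelian varieties `B` over `F` (the quotients of the Albanese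
variety of `Y_F`); see `AbelianVarieties`.

`V.dim B`, `V.End B` and `V.L B` are the dimension, the `ℚ`-algebra `End_F(B) ⊗ ℚ` and the Hasse-Weil
`L`-function of `B`. For a Hilbert newform `f : W.Form` over `F` of parallel weight two let `W.field
f` be the field `M_f`, and `W.L f σ` the `L`-function of `f^σ`. `GL2Type V L B` says that `B` is of
`GL₂(L)`-type, and `Associated V W L B f` that it is associated to `f`, see the problem file. So
`Modular V W B` says that `B` is associated to a Hilbert newform if it is of `GL₂(L)`-type, for all
number fields `L`; this is question Q1 for `B`.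

**Theorem.** Let `E_m` be the number of the equations, and for `N ∈ ℕ` let `e = (m + 1) N + E_m - 1`
(`esh m N`).

(1) For all `m ≥ 1` and `N` the motive `Gr^W_{2e+1} H^{2e+2}_c((C_m)_F)(e)` is `h^1(B)` for an abelian
variety `B = B_{m,N}` over `F`, and for every abelian variety `B` over `F` and all large `m` there is
an `N` such that `h^1(B)` is a direct factor of `h^1(B_{m,N})`: `B` is a factor of `B_{m,N}` up to
isogeny.

(2) Question Q1 has a positive answer for all abelian varieties over `F` of `GL₂`-type if and only if
for infinitely many `m` and all `N` it has a positive answer for all abelian varieties `B` of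
`GL₂`-type such that `h^1(B)` is a direct factor of the single motive `Gr^W_{2e+1}
H^{2e+2}_c((C_m)_F)(e)`, the motive `h^1(B_{m,N})`.

(3) `G_m` has integral coefficients and degree at most three, and `C_m` is smooth over all rings.

The hypotheses on the motives are standard (`IsMot`): exact sequences, affine bundles, disjoint unions,
the cohomology of affine spaces, the weights of `H^j_c(X)` are between `0` and `2 dim X`, monomorphisms
split, `Gr^W_w H^j_c(X)` is a direct factor of `h^w(Y)` for some smooth projective `Y` (it is a
subquotient, by the weight spectral sequence), and every smooth projective scheme has an affine bundle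
whose total space is affine (Jouanolou).

Idea of the proof. The projection of `C_m` to the affine space with the coordinates `x, z, c, y` is an
affine bundle over the complement of the zero set `W_m` of the equations. The scheme `W_m` is the
disjoint union, over all sets `s` of relations (`c_r = 1` for `r ∈ s` and `c_r = 0` for the others), of
the products `X_s × 𝔸 ^ ((m + 1) N(s))`, where `X_s` is the affine scheme defined by the relations in
`s` and `N(s) = ∑_{r ∈ s} 2 ^ ν(r)`. The numbers `N(s)` are different, and the weights of the
cohomology of `X_s` are between `0` and `2 m`. So the part of weight `w + 2 (m + 1) N(s)`,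
`0 ≤ w ≤ 2 m + 1`, of the cohomology of `W_m` is the twist of the part of weight `w` of the cohomology of
`X_s`, and it is different from the weight of the cohomology of the affine space. Every affine scheme of
finite type over a prime field is an `X_s`, for all large `m`. The pieces of the cohomology of an
arbitrary scheme are direct factors of those of a disjoint union of affine schemes.

The universal system of relations is the one of helper854 (`Pool.Agent.H854.SQ`).
-/

set_option autoImplicit false

open CategoryTheory CategoryTheory.Limits AlgebraicGeometry Pool.Agent.Y116.UV Pool.Agent.Z125.UN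
  Pool.Agent.Q193.LT Pool.Agent.H854.SQ Pool.Agent.H367.OS

universe w v u



namespace Pool.Agent.Results.MP_326854_nt.PiecesOfOneSequence

/-- The dimensions, the endomorphism algebras and the `L`-functions of the abelian varieties over `F`. -/
structure Varieties (Ab : Type w) where
  /-- the dimension -/
  dim : Ab → ℕ
  /-- the algebra `End_F(B) ⊗ ℚ` -/
  End : Ab → Type
  /-- it is a ring -/
  ring : ∀ B, Ring (End B)
  /-- the Hasse-Weil `L`-function -/
  L : Ab → ℂ → ℂ

attribute [instance] Varieties.ring

/-- Newforms `f` with their coefficient fields, and the `L`-functions of the conjugate newforms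
`f^σ`. -/
structure Newforms where
  /-- the newforms -/
  Form : Type
  /-- the coefficient field -/
  field : Form → Type
  /-- it is a field -/
  isField : ∀ f, Field (field f)
  /-- it is a number field -/
  isNumberField : ∀ f, NumberField (field f)
  /-- the `L`-function of the conjugate `f^σ` -/
  L : ∀ f, (field f →+* ℂ) → ℂ → ℂ

attribute [instance] Newforms.isField Newforms.isNumberField

variable {Ab : Type w}

/-- The abelian variety `B` is of `GL₂(L)`-type. -/
def GL2Type (V : Varieties Ab) (L : Type) [Field L] [NumberField L] (B : Ab) : Prop :=
  Module.finrank ℚ L = V.dim B ∧ Nonempty (L →+* V.End B)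

/-- The abelian variety `B` (of `GL₂(L)`-type) is associated to the newform `f`. -/
def Associated (V : Varieties Ab) (W : Newforms) (L : Type) [Field L] [NumberField L] (B : Ab)
    (f : W.Form) : Prop :=
  ∃ ι : W.field f →+* L, ∀ s : ℂ, V.L B s = ∏ τ : L →+* ℂ, W.L f (τ.comp ι) s

/-- If `B` is of `GL₂(L)`-type, it is associated to a newform, for all number fields `L`. -/
def Modular (V : Varieties Ab) (W : Newforms) (B : Ab) : Prop :=
  ∀ (L : Type) [Field L] [NumberField L], GL2Type V L B → ∃ f : W.Form, Associated V W L B f

/-- **Modularity of abelian varieties of `GL₂`-type and single pieces of one sequence of cubic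
hypersurfaces over the integers.** See the explanations above. -/
theorem result {F : Type} [Field F] [NumberField F] [NumberField.IsTotallyReal F] {M : Type u}
    [Category.{v} M] [Abelian M] {D : Pieces ℚ M} (h : IsMot D) {h1 : Ab → M}
    (ha : AbelianVarieties D h1) (V : Varieties Ab) (W : Newforms) :
    (∀ m, 1 ≤ m → ∀ N : ℕ, ∃ B : Ab, Nonempty (h1 B ≅ (D.tw (esh m N)).obj
      (D.G (1 + 2 * esh m N) (1 + 2 * esh m N + 1) (cubG ℚ m)))) ∧
    (∀ B : Ab, ∀ᶠ m in Filter.atTop, ∃ N : ℕ, Factor (h1 B) ((D.tw (esh m N)).obj
      (D.G (1 + 2 * esh m N) (1 + 2 * esh m N + 1) (cubG ℚ m)))) ∧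
    ((∀ B : Ab, Modular V W B) ↔ ∃ᶠ m in Filter.atTop, ∀ (N : ℕ) (B : Ab),
      Factor (h1 B) ((D.tw (esh m N)).obj
        (D.G (1 + 2 * esh m N) (1 + 2 * esh m N + 1) (cubG ℚ m))) → Modular V W B) ∧
    ∀ m : ℕ, (univG ℤ m).totalDegree ≤ 3 ∧
      ∀ (R : Type) [CommRing R], MvPolynomial.map (Int.castRingHom R) (univG ℤ m) = univG R m ∧
        Smooth (cubG R m).hom := by
  obtain ⟨h2, h3⟩ := abelian_occurs isPrimeField_rat h ha
  exact ⟨h2, h3, all_abelian isPrimeField_rat h ha _, cubG_facts⟩

end Pool.Agent.Results.MP_326854_nt.PiecesOfOneSequence
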